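import Pool.Agent.J6H50.Bary.PoincT

/-!
# The characterisation of equality (Q2) fails

Q2 asks whether `√(C_P(ν)) = ∑ w i / √(κ i)` holds for a barycenter `ν` of `κ i`-strongly
log-concave measures `μ i` if and only if all the `μ i` split off a curvature-saturating Gaussian
factor in one common direction. We show that the answer is negative: the implication from the
right to the left fails in all dimensions `n ≥ 5`, by an arbitrarily large factor, even for equal
weights and equal curvature bounds `κ i = 1 / (10 (n - 1)²)`.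

The definitions `StronglyLogConcave`, `poincareConst` (a value in `[0, ∞]`), `IsCoupling`, `W2sq`,
`IsBarycenter` are those of the starting file `NoPoincareBound`, whose theorem (no bound for the
Poincaré constant of barycenters in dimension `n - 1 ≥ 4`) is used. The proof here: the measures of
that theorem are multiplied with one Gaussian of variance `1 / κ` in a new direction. Strong
log-concavity with the constant `κ` is preserved, the product of the barycenter with the Gaussian is
a barycenter of the products (use the product of a coupling with the diagonal coupling of the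
Gaussian, and the projection, which does not increase the transport cost), and the Poincaré constant
of a product is at least the one of its factor.
-/

set_option autoImplicit false

namespace Pool.Agent.Results.MP_7c2736_pr.EqualityCaseFails

open MeasureTheory ProbabilityTheory
open scoped ENNReal NNReal RealInnerProductSpace

open Pool.Agent.Results.MP_7c2736_pr.NoPoincareBound (E StronglyLogConcave poincareConst
  IsBarycenter)

/-- `μ` splits off the curvature-saturating Gaussian factor `N(⟪e, m⟫, 1 / κ)` in the direction of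
the unit vector `e`, where `m` is the mean of `μ`: `μ` is the law of `S e + Y`, where `S` has the law
`N(⟪e, m⟫, 1 / κ)` and `Y` is independent of `S` and has a law `ρ` carried by the orthogonal
complement of `e`. -/
def SplitsOff {n : ℕ} (κ : ℝ) (e : E n) (μ : Measure (E n)) : Prop :=
  ∃ ρ : Measure (E n), IsProbabilityMeasure ρ ∧ (∀ᵐ y ∂ρ, ⟪e, y⟫ = 0) ∧
    μ = ((gaussianReal (∫ x, ⟪e, x⟫ ∂μ) (Real.toNNReal (1 / κ))).prod ρ).map
      fun p => p.1 • e + p.2

/-- The statement of Q2 of the problem. -/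
def QuestionTwo : Prop :=
  ∀ (n N : ℕ) (w κ : Fin N → ℝ) (μ : Fin N → Measure (E n)) (ν : Measure (E n)),
    1 ≤ n → 1 ≤ N → (∀ i, 0 < w i) → ∑ i, w i = 1 → (∀ i, 0 < κ i) →
    (∀ i, IsProbabilityMeasure (μ i)) → (∀ i, StronglyLogConcave (κ i) (μ i)) →
    IsBarycenter w μ ν →
    (poincareConst ν ^ (1 / 2 : ℝ) = ENNReal.ofReal (∑ i, w i / √(κ i)) ↔
      ∃ e : E n, ‖e‖ = 1 ∧ ∀ i, SplitsOff (κ i) e (μ i))

open Pool.Agent.J6H50.Bary in
lemma splits_ten {n : ℕ} {κ : ℝ} (_hκ : 0 < κ) (μ : Measure (E n)) [IsProbabilityMeasure μ] :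
    SplitsOff κ (J (1, (0 : E n))) (ten (gaussianReal 0 (Real.toNNReal (1 / κ))) μ) := by
  set γ := gaussianReal 0 (Real.toNNReal (1 / κ)) with hγ
  have hJm := (continuous_J (n := n)).measurable
  have hin : ∀ p : ℝ × E n, ⟪J (1, (0 : E n)), J p⟫ = p.1 := by
    intro p
    rw [PiLp.inner_apply, Fin.sum_univ_succ]
    simp
  have hmean : ∫ x, ⟪J (1, (0 : E n)), x⟫ ∂(ten γ μ) = 0 := by
    unfold ten
    rw [integral_map hJm.aemeasurable (by fun_prop)]
    simp_rw [hin]
    rw [integral_fun_fst (fun s : ℝ => s)]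
    simp [hγ]
  refine ⟨μ.map fun y => J (0, y), ?_, ?_, ?_⟩
  · exact Measure.isProbabilityMeasure_map
      (hJm.comp (measurable_const.prodMk measurable_id)).aemeasurable
  · have hm : Measurable fun y : E n => J ((0 : ℝ), y) :=
      hJm.comp (measurable_const.prodMk measurable_id)
    have hs : MeasurableSet {y : E (n + 1) | ⟪J (1, (0 : E n)), y⟫ = 0} :=
      measurableSet_eq_fun (by fun_prop) measurable_const
    exact (ae_map_iff hm.aemeasurable hs).2 (ae_of_all _ fun y => hin _)
  · rw [hmean, ← hγ]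
    have hm : Measurable fun y : E n => J ((0 : ℝ), y) :=
      hJm.comp (measurable_const.prodMk measurable_id)
    have h1 : γ.prod (μ.map fun y => J ((0 : ℝ), y)) =
        (γ.prod μ).map (Prod.map id fun y => J ((0 : ℝ), y)) := by
      rw [← Measure.map_prod_map _ _ measurable_id hm, Measure.map_id]
    rw [h1, Measure.map_map (by fun_prop) (measurable_id.prodMap hm)]
    unfold ten
    congr 1
    funext p
    ext i
    refine Fin.cases ?_ (fun j => ?_) i <;> simp

/-- **Q2 has a negative answer.** (1) The equivalence of Q2 fails. (2) More precisely, for every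
`n ≥ 5` and every `C` there are `N`, weights `w i = 1 / N`, probability measures `μ 1, …, μ N` on
`ℝⁿ` which are `κ i`-strongly log-concave with `κ i = 1 / (10 (n - 1)²)` and all split off a
curvature-saturating Gaussian factor in one common direction `e`, and a barycenter `ν` of them with
`√(C_P(ν)) > C ∑ w i / √(κ i)`. -/
theorem result : ¬ QuestionTwo ∧
    ∀ (n : ℕ), 5 ≤ n → ∀ C : ℝ, ∃ (N : ℕ) (w κ : Fin N → ℝ) (μ : Fin N → Measure (E n))
      (ν : Measure (E n)),
      (∀ i, 0 < w i) ∧ ∑ i, w i = 1 ∧ (∀ i, w i = 1 / N) ∧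
      (∀ i, 0 < κ i) ∧ (∀ i, κ i = 1 / (10 * ((n : ℝ) - 1) ^ 2)) ∧
      (∀ i, IsProbabilityMeasure (μ i)) ∧ (∀ i, StronglyLogConcave (κ i) (μ i)) ∧
      (∃ e : E n, ‖e‖ = 1 ∧ ∀ i, SplitsOff (κ i) e (μ i)) ∧
      IsBarycenter w μ ν ∧
      ENNReal.ofReal (C * ∑ i, w i / √(κ i)) < poincareConst ν ^ (1 / 2 : ℝ) := by
  have main : ∀ (n : ℕ), 5 ≤ n → ∀ C : ℝ, ∃ (N : ℕ) (w κ : Fin N → ℝ)
      (μ : Fin N → Measure (E n)) (ν : Measure (E n)),
      (∀ i, 0 < w i) ∧ ∑ i, w i = 1 ∧ (∀ i, w i = 1 / N) ∧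
      (∀ i, 0 < κ i) ∧ (∀ i, κ i = 1 / (10 * ((n : ℝ) - 1) ^ 2)) ∧
      (∀ i, IsProbabilityMeasure (μ i)) ∧ (∀ i, StronglyLogConcave (κ i) (μ i)) ∧
      (∃ e : E n, ‖e‖ = 1 ∧ ∀ i, SplitsOff (κ i) e (μ i)) ∧
      IsBarycenter w μ ν ∧
      ENNReal.ofReal (C * ∑ i, w i / √(κ i)) < poincareConst ν ^ (1 / 2 : ℝ) := by
    intro n hn C
    obtain ⟨m, rfl⟩ : ∃ m, n = m + 1 := ⟨n - 1, by omega⟩
    obtain ⟨N, w, κ, μ, ν, hw, hw1, hwN, hκ, hκe, hμ, hlc, hb, hC⟩ :=
      NoPoincareBound.result m (by omega) C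
    have hν := hb.1
    set κ₀ : ℝ := 1 / (10 * (m : ℝ) ^ 2) with hκ₀
    have hm0 : (0 : ℝ) < m := by exact_mod_cast (by omega : 0 < m)
    have hκ₀pos : 0 < κ₀ := by positivity
    set γ := gaussianReal 0 (Real.toNNReal (1 / κ₀)) with hγ
    refine ⟨N, w, κ, fun i => Pool.Agent.J6H50.Bary.ten γ (μ i),
      Pool.Agent.J6H50.Bary.ten γ ν, hw, hw1, hwN, hκ, fun i => ?_, fun i => ?_, fun i => ?_,
      ⟨Pool.Agent.J6H50.Bary.J (1, 0), ?_, fun i => ?_⟩,
      Pool.Agent.J6H50.Bary.bary_ten γ hμ hb, ?_⟩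
    · rw [hκe i, hκ₀]
      push_cast
      rw [add_sub_cancel_right]
    · have := hμ i
      infer_instance
    · have h := hlc i
      rw [hκe i] at h ⊢
      exact Pool.Agent.J6H50.Bary.strongLC_ten hκ₀pos h
    · have h := Pool.Agent.J6H50.Bary.norm_sq (Pool.Agent.J6H50.Bary.J (1, (0 : E m)))
      rw [Pool.Agent.J6H50.Bary.J_zero, Pool.Agent.J6H50.Bary.P_J, norm_zero] at h
      have h1 : ‖Pool.Agent.J6H50.Bary.J (1, (0 : E m))‖ ^ 2 = 1 ^ 2 := by rw [h]; norm_num
      exact (sq_eq_sq₀ (norm_nonneg _) zero_le_one).1 h1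
    · have := hμ i
      rw [hκe i]
      exact splits_ten hκ₀pos (μ i)
    · refine hC.trans_le ?_
      exact ENNReal.rpow_le_rpow (Pool.Agent.J6H50.Bary.poincare_ten γ ν) (by norm_num)
  refine ⟨fun hQ => ?_, main⟩
  obtain ⟨N, w, κ, μ, ν, hw, hw1, hwN, hκ, hκe, hμ, hlc, hs, hb, hC⟩ := main 5 le_rfl 1
  have hN : 1 ≤ N := by
    rcases Nat.eq_zero_or_pos N with h | h
    · subst h
      simp at hw1
    · exact h
  have h := (hQ 5 N w κ μ ν (by norm_num) hN hw hw1 hκ hμ hlc hb).2 hs
  rw [one_mul, h] at hC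
  exact lt_irrefl _ hC

end Pool.Agent.Results.MP_7c2736_pr.EqualityCaseFails
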